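import Pool.Agent.H69.LQ.Lib
import Pool.Agent.H69.LNN.Targets
import Pool.Agent.H48.LQ.P1

/-!
(PW) Poincaré's inequality with a zero in every window.
-/

set_option autoImplicit false

open MeasureTheory Metric Set
open scoped ENNReal

namespace Pool.Agent.H75.LNN

open Pool.Agent.H69.LQ Pool.Agent.H69.LNN

theorem c1_cont {g g' : ℝ → ℝ} (h : C1 g g') : Continuous g :=
  continuous_iff_continuousAt.2 fun x => (h.1 x).continuousAt

theorem c1_comp_neg {g g' : ℝ → ℝ} (h : C1 g g') : C1 (fun x => g (-x)) (fun x => -g' (-x)) := by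
  constructor
  · intro x
    have h1 := (h.1 (-x)).comp x (hasDerivAt_neg x)
    have h2 : g' (-x) * -1 = -g' (-x) := by ring
    rw [h2] at h1
    exact h1
  · exact (h.2.comp continuous_neg).neg

theorem int_sq_nonneg {a b : ℝ} (hab : a ≤ b) (f : ℝ → ℝ) : 0 ≤ ∫ x in a..b, f x ^ 2 :=
  intervalIntegral.integral_nonneg hab fun _ _ => sq_nonneg _

theorem int_sq_mono {f : ℝ → ℝ} (hf : Continuous f) {a b c d : ℝ} (h1 : c ≤ a) 
    (h3 : b ≤ d) : ∫ x in a..b, f x ^ 2 ≤ ∫ x in c..d, f x ^ 2 := by
  have hi : ∀ u v : ℝ, IntervalIntegrable (fun x => f x ^ 2) volume u v :=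
    fun u v => (hf.pow 2).intervalIntegrable u v
  have e1 := intervalIntegral.integral_add_adjacent_intervals (hi c a) (hi a b)
  have e2 := intervalIntegral.integral_add_adjacent_intervals (hi c b) (hi b d)
  have p1 := int_sq_nonneg h1 f
  have p2 := int_sq_nonneg h3 f
  linarith

/-- The zero is the left endpoint. -/
theorem zero_left {z w : ℝ} (hzw : z ≤ w) {g g' : ℝ → ℝ} (h : C1 g g') (hz : g z = 0) :
    ∫ x in z..w, g x ^ 2 ≤ (w - z) ^ 2 / 2 * ∫ x in z..w, g' x ^ 2 := by
  have h1 : ∫ x in z..w, g x ^ 2 ≤ ∫ x in z..w, (x - z) * ∫ t in z..w, g' t ^ 2 := by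
    apply intervalIntegral.integral_mono_on hzw
    · exact ((c1_cont h).pow 2).intervalIntegrable _ _
    · exact Continuous.intervalIntegrable (by fun_prop) _ _
    · intro x hx
      have h2 := Pool.Agent.H48.LQ.p1_aux z x g g' hx.1 h
      rw [hz, sub_zero] at h2
      refine h2.trans ?_
      exact mul_le_mul_of_nonneg_left (int_sq_mono h.2 le_rfl hx.2) (by linarith [hx.1])
  refine h1.trans (le_of_eq ?_)
  rw [intervalIntegral.integral_mul_const, intervalIntegral.integral_sub
    (Continuous.intervalIntegrable (by fun_prop) _ _)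
    (Continuous.intervalIntegrable (by fun_prop) _ _), integral_id,
    intervalIntegral.integral_const, smul_eq_mul]
  ring

/-- The zero is the right endpoint. -/
theorem zero_right {u z : ℝ} (huz : u ≤ z) {g g' : ℝ → ℝ} (h : C1 g g') (hz : g z = 0) :
    ∫ x in u..z, g x ^ 2 ≤ (z - u) ^ 2 / 2 * ∫ x in u..z, g' x ^ 2 := by
  have h1 := zero_left (z := -z) (w := -u) (by linarith) (c1_comp_neg h) (by simpa using hz)
  have e1 : ∫ x in -z..-u, g (-x) ^ 2 = ∫ x in u..z, g x ^ 2 := by
    rw [intervalIntegral.integral_comp_neg (fun x => g x ^ 2), neg_neg, neg_neg]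
  have e2 : ∫ x in -z..-u, (-g' (-x)) ^ 2 = ∫ x in u..z, g' x ^ 2 := by
    have : ∀ x : ℝ, (-g' (-x)) ^ 2 = g' (-x) ^ 2 := fun x => by ring
    simp only [this]
    rw [intervalIntegral.integral_comp_neg (fun x => g' x ^ 2), neg_neg, neg_neg]
  rw [e1, e2] at h1
  have e3 : (-u - -z) = z - u := by ring
  rwa [e3] at h1

theorem zero_mid {u z w l : ℝ} (huz : u ≤ z) (hzw : z ≤ w) (hl : w - u ≤ l)
    {g g' : ℝ → ℝ} (h : C1 g g') (hz : g z = 0) :
    ∫ x in u..w, g x ^ 2 ≤ l ^ 2 / 2 * ∫ x in u..w, g' x ^ 2 := by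
  have hi : ∀ (f : ℝ → ℝ), Continuous f → ∀ a b : ℝ,
    IntervalIntegrable (fun x => f x ^ 2) volume a b :=
    fun f hf a b => (hf.pow 2).intervalIntegrable a b
  have e1 := intervalIntegral.integral_add_adjacent_intervals (hi g (c1_cont h) u z) (hi g (c1_cont h) z w)
  have e2 := intervalIntegral.integral_add_adjacent_intervals (hi g' h.2 u z) (hi g' h.2 z w)
  have h1 := zero_right huz h hz
  have h2 := zero_left hzw h hz
  have p1 := int_sq_nonneg huz g'
  have p2 := int_sq_nonneg hzw g'
  rw [← e1, ← e2, mul_add]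
  have h3 : (z - u) ^ 2 / 2 ≤ l ^ 2 / 2 := by
    have : (z - u) ^ 2 ≤ l ^ 2 := pow_le_pow_left₀ (by linarith) (by linarith) 2
    linarith
  have h4 : (w - z) ^ 2 / 2 ≤ l ^ 2 / 2 := by
    have : (w - z) ^ 2 ≤ l ^ 2 := pow_le_pow_left₀ (by linarith) (by linarith) 2
    linarith
  have h5 := mul_le_mul_of_nonneg_right h3 p1
  have h6 := mul_le_mul_of_nonneg_right h4 p2
  linarith

theorem pf_PW : T_PW := by
  intro X Y l g g' hXY hl h hX hwin
  have hi : ∀ (f : ℝ → ℝ), Continuous f → ∀ a b : ℝ,
    IntervalIntegrable (fun x => f x ^ 2) volume a b :=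
    fun f hf a b => (hf.pow 2).intervalIntegrable a b
  have pY := int_sq_nonneg hXY g'
  by_cases hs : Y - X ≤ l
  · have h1 := zero_mid (u := X) (z := X) (w := Y) le_rfl hXY hs h hX
    have h2 : l ^ 2 / 2 * (∫ x in X..Y, g' x ^ 2) ≤ l ^ 2 * ∫ x in X..Y, g' x ^ 2 := by
      apply mul_le_mul_of_nonneg_right _ pY
      linarith [sq_nonneg l]
    exact h1.trans h2
  · push Not at hs
    have key : ∀ m : ℕ, X + m * l ≤ Y →
        ∫ x in X..(X + m * l), g x ^ 2 ≤ l ^ 2 / 2 * ∫ x in X..(X + m * l), g' x ^ 2 := by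
      intro m
      induction m with
      | zero =>
        intro _
        simp
      | succ m ih =>
        intro hm
        push_cast at hm ⊢
        have hm' : X + m * l ≤ Y := by linarith
        have h0 : X ≤ X + m * l := by
          have : (0 : ℝ) ≤ m * l := by positivity
          linarith
        obtain ⟨z, hz1, hz2, hz⟩ := hwin (X + m * l) h0 (by linarith)
        have h1 := zero_mid (u := X + m * l) (w := X + m * l + l) (l := l) hz1 hz2
          (by linarith) h hz
        have e1 := intervalIntegral.integral_add_adjacent_intervals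
          (hi g (c1_cont h) X (X + m * l)) (hi g (c1_cont h) (X + m * l) (X + m * l + l))
        have e2 := intervalIntegral.integral_add_adjacent_intervals
          (hi g' h.2 X (X + m * l)) (hi g' h.2 (X + m * l) (X + m * l + l))
        have e3 : X + (m + 1) * l = X + m * l + l := by ring
        rw [e3, ← e1, ← e2, mul_add]
        exact add_le_add (ih hm') h1
    obtain ⟨m, hm⟩ : ∃ m : ℕ, m = ⌊(Y - X) / l⌋₊ := ⟨_, rfl⟩
    have hm1 : X + m * l ≤ Y := by
      have h1 : (m : ℝ) ≤ (Y - X) / l := by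
        rw [hm]
        exact Nat.floor_le (div_nonneg (by linarith) hl.le)
      rw [le_div_iff₀ hl] at h1
      linarith
    have hm2 : Y ≤ X + m * l + l := by
      have h1 : (Y - X) / l < m + 1 := by
        rw [hm]
        exact Nat.lt_floor_add_one _
      rw [div_lt_iff₀ hl] at h1
      linarith
    have h1 := key m hm1
    obtain ⟨z, hz1, hz2, hz⟩ := hwin (Y - l) (by linarith) (by linarith)
    have h2 := zero_mid (u := Y - l) (w := Y) (l := l) hz1 (by linarith) (by linarith) h hz
    have h3 := int_sq_mono (c1_cont h) (a := X + m * l) (b := Y) (c := Y - l) (d := Y)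
      (by linarith) le_rfl
    have h4 := int_sq_mono h.2 (a := Y - l) (b := Y) (c := X) (d := Y)
      (by linarith) le_rfl
    have h0 : X ≤ X + m * l := by
      have : (0 : ℝ) ≤ m * l := by positivity
      linarith
    have h5 := int_sq_mono h.2 (a := X) (b := X + m * l) (c := X) (d := Y) le_rfl hm1
    have e1 := intervalIntegral.integral_add_adjacent_intervals
      (hi g (c1_cont h) X (X + m * l)) (hi g (c1_cont h) (X + m * l) Y)
    have pl : 0 ≤ l ^ 2 / 2 := by positivity
    have h6 := mul_le_mul_of_nonneg_left h4 pl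
    have h7 := mul_le_mul_of_nonneg_left h5 pl
    rw [← e1]
    linarith

end Pool.Agent.H75.LNN
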