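import Pool.Agent.H69.LQ.Lib
import Pool.Agent.H69.LNN.Targets

/-!
(WI) windows and volume: an interval of `S` in the logarithmic variable is short.
-/

set_option autoImplicit false

open MeasureTheory Metric Set
open scoped ENNReal

namespace Pool.Agent.H75.LNN

open Pool.Agent.H69.LQ Pool.Agent.H69.LNN

theorem int_pow (N : ℕ) (hN : 3 ≤ N) (a b : ℝ) :
    ∫ r in a..b, (N : ℝ) * r ^ (N - 1) = b ^ N - a ^ N := by
  rw [intervalIntegral.integral_const_mul, integral_pow]
  have h1 : N - 1 + 1 = N := by omega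
  have h2 : ((N - 1 : ℕ) : ℝ) + 1 = N := by exact_mod_cast h1
  rw [h1, h2]
  have : (N : ℝ) ≠ 0 := by positivity
  field_simp

theorem pf_WI : T_WI := by
  intro N S y l hN hS hl hb hin
  have h0 : Real.exp y ≤ Real.exp (y + l) := Real.exp_le_exp.2 (by linarith)
  have h1 : Real.exp (N * y) * (Real.exp (N * l) - 1) =
      ∫ r in Ioo (Real.exp y) (Real.exp (y + l)), (N : ℝ) * r ^ (N - 1) := by
    rw [← integral_Ioc_eq_integral_Ioo, ← intervalIntegral.integral_of_le h0, int_pow N hN,
      ← Real.exp_nat_mul, ← Real.exp_nat_mul, mul_sub, mul_one, ← Real.exp_add]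
    ring_nf
  rw [h1]
  unfold vr
  apply setIntegral_mono_set
  · apply IntegrableOn.mono_set (t := Icc 0 (bb N))
    · exact (Continuous.integrableOn_Icc (by fun_prop))
    · exact fun x hx => ⟨hx.1.1.le, hx.1.2.le⟩
  · rw [Filter.EventuallyLE, ae_restrict_iff' (measurableSet_Ioo.inter hS)]
    filter_upwards with x hx
    have : 0 ≤ x := hx.1.1.le
    positivity
  · apply Filter.Eventually.of_forall
    intro x hx
    have hx1 : Real.exp y < x := hx.1
    have hx2 : x < Real.exp (y + l) := hx.2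
    have hx0 : 0 < x := (Real.exp_pos y).trans hx1
    refine ⟨⟨hx0, hx2.trans_le hb⟩, ?_⟩
    rw [← Real.exp_log hx0]
    apply hin
    · exact ((Real.lt_log_iff_exp_lt hx0).2 hx1).le
    · exact ((Real.log_lt_iff_lt_exp hx0).2 hx2).le

end Pool.Agent.H75.LNN
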