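import Pool.Agent.H69.LQ.Lib
import Pool.Agent.H69.LNN.Targets
import Pool.Agent.H75.LNN.PW
import Pool.Agent.H75.LNN.WI

/-!
(OX) the outer part of a ray of small volume.
-/

set_option autoImplicit false

open MeasureTheory Metric Set
open scoped ENNReal

namespace Pool.Agent.H75.LNN

open Pool.Agent.H69.LQ Pool.Agent.H69.LNN

/-- The volume of an interval of a ray. -/
theorem vol_low (N : ℕ) (hN : 3 ≤ N) {S : Set ℝ} (hS : MeasurableSet S) {a R : ℝ} (ha : 0 < a)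
    (haR : a ≤ R) (hR : R ≤ bb N) (hin : ∀ r, a ≤ r → r < R → r ∈ S) :
    R ^ N - a ^ N ≤ vr N S := by
  rw [← int_pow N hN, intervalIntegral.integral_of_le haR, integral_Ioc_eq_integral_Ioo]
  unfold vr
  apply setIntegral_mono_set
  · apply IntegrableOn.mono_set (t := Icc 0 (bb N))
    · exact (Continuous.integrableOn_Icc (by fun_prop))
    · exact fun x hx => ⟨hx.1.1.le, hx.1.2.le⟩
  · rw [Filter.EventuallyLE, ae_restrict_iff' (measurableSet_Ioo.inter hS)]
    filter_upwards with x hx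
    have : 0 ≤ x := hx.1.1.le
    positivity
  · apply Filter.Eventually.of_forall
    intro x hx
    have hx1 : a < x := hx.1
    have hx2 : x < R := hx.2
    exact ⟨⟨ha.trans hx1, hx2.trans_le hR⟩, hin x hx1.le hx2⟩

/-- The potential is small near the boundary. -/
theorem qx_small (hL1 : T_L1) (hL2 : T_L2) (K₁ K₂ : ℝ) (hK₁ : 1 ≤ K₁) (hK₂ : 1 ≤ K₂) :
    ∃ N₀ : ℕ, 3 ≤ N₀ ∧ ∀ (N : ℕ) (L x : ℝ), N₀ ≤ N → Fz N L → -K₁ / N ≤ x →
      x ≤ Real.log (bb N) → |qx N L x| ≤ (N : ℝ) ^ 2 / (2 * K₂ ^ 2) := by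
  obtain ⟨C, N₁, hC, hN₁, h2⟩ := hL2
  set M : ℝ := C / 4 + (1 + C) * (20 + K₁) with hM
  have hM0 : 0 < M := by positivity
  set T : ℝ := 2 * K₂ ^ 2 * M + 2 * (20 + K₁) with hT
  have hT1 : 1 ≤ T := by
    have : 0 ≤ 2 * K₂ ^ 2 * M := by positivity
    linarith
  refine ⟨max N₁ ⌈T ^ 2⌉₊, le_trans hN₁ (le_max_left _ _), ?_⟩
  intro N L x hN hF hx1 hx2
  have hNN₁ : N₁ ≤ N := (le_max_left _ _).trans hN
  have hN3 : 3 ≤ N := hN₁.trans hNN₁
  have hNT : T ^ 2 ≤ N := by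
    have h3 : (⌈T ^ 2⌉₊ : ℝ) ≤ N := by exact_mod_cast (le_max_right _ _).trans hN
    exact (Nat.le_ceil _).trans h3
  have hN0 : (0 : ℝ) < N := by
    have : 0 < N := by omega
    exact_mod_cast this
  have hs0 : 0 < Real.sqrt N := Real.sqrt_pos.2 hN0
  have hsT : T ≤ Real.sqrt N := Real.le_sqrt_of_sq_le hNT
  have hs1 : 1 ≤ Real.sqrt N := hT1.trans hsT
  have hss : Real.sqrt N * Real.sqrt N = N := Real.mul_self_sqrt hN0.le
  have hL := hL1 N L hN3 hF
  have hLu := h2 N L hNN₁ hF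
  -- the size of `x`
  have hb : Real.log (bb N) ≤ 20 / Real.sqrt N := by
    have h3 : 0 < bb N := by
      unfold bb
      positivity
    have h4 := Real.log_le_sub_one_of_pos h3
    unfold bb at h4 ⊢
    linarith
  have hKN : K₁ / N ≤ K₁ / Real.sqrt N := by
    apply div_le_div_of_nonneg_left (by linarith) hs0
    nlinarith
  have hxa : |x| ≤ (20 + K₁) / Real.sqrt N := by
    have h3 : 0 ≤ K₁ / Real.sqrt N := by positivity
    have h4 : 0 ≤ 20 / Real.sqrt N := by positivity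
    rw [add_div, abs_le]
    constructor
    · have : -K₁ / (N : ℝ) = -(K₁ / N) := by ring
      rw [this] at hx1
      linarith
    · linarith
  have hx21 : |2 * x| ≤ 1 := by
    rw [abs_mul, abs_two]
    have h3 : (20 + K₁) / Real.sqrt N ≤ 1 / 2 := by
      rw [div_le_div_iff₀ hs0 two_pos]
      have : 0 ≤ 2 * K₂ ^ 2 * M := by positivity
      linarith
    linarith
  have he := Real.abs_exp_sub_one_le hx21
  have he' : |Real.exp (2 * x) - 1| ≤ 4 * ((20 + K₁) / Real.sqrt N) := by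
    rw [abs_mul, abs_two] at he
    linarith
  have hCs : C / Real.sqrt N ≤ C := div_le_self hC.le hs1
  have hL0 : 0 ≤ L := hF.pos.le
  have e1 : |(N : ℝ) ^ 2 / 4 - L| ≤ (N : ℝ) ^ 2 / 4 * (C / Real.sqrt N) := by
    rw [abs_sub_comm, abs_of_nonneg (by linarith)]
    linarith
  have e2 : L ≤ (N : ℝ) ^ 2 / 4 * (1 + C) := by
    refine hLu.trans ?_
    gcongr
  have e3 : |L * (Real.exp (2 * x) - 1)| ≤
      (N : ℝ) ^ 2 / 4 * (1 + C) * (4 * ((20 + K₁) / Real.sqrt N)) := by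
    rw [abs_mul, abs_of_nonneg hL0]
    gcongr
  have e4 : qx N L x = ((N : ℝ) ^ 2 / 4 - L) - L * (Real.exp (2 * x) - 1) := by
    unfold qx
    ring
  have e5 : |qx N L x| ≤ (N : ℝ) ^ 2 * (M / Real.sqrt N) := by
    rw [e4]
    refine (abs_sub _ _).trans ((add_le_add e1 e3).trans (le_of_eq ?_))
    rw [hM]
    field_simp
  refine e5.trans ?_
  have e6 : M / Real.sqrt N ≤ 1 / (2 * K₂ ^ 2) := by
    rw [div_le_div_iff₀ hs0 (by positivity)]
    have : 0 ≤ 2 * (20 + K₁) := by linarith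
    linarith
  calc (N : ℝ) ^ 2 * (M / Real.sqrt N) ≤ (N : ℝ) ^ 2 * (1 / (2 * K₂ ^ 2)) := by gcongr
    _ = _ := by ring

/-- The identity with the profile split off. -/
theorem split_off {α X τ : ℝ} {q g g' P P' : ℝ → ℝ} (hq : Continuous q)
    (hg : C1 g g') (hP : ∀ x, HasDerivAt P (P' x) x) (hP' : ∀ x, HasDerivAt P' (q x * P x) x)
    (hα : g α = τ * P α) (hX : g X = 0) :
    ∫ x in α..X, (g' x ^ 2 + q x * g x ^ 2) =
      (∫ x in α..X, ((g' x - τ * P' x) ^ 2 + q x * (g x - τ * P x) ^ 2)) -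
        τ ^ 2 * (P X * P' X) - τ ^ 2 * (P α * P' α) := by
  have cg := c1_cont hg
  have cg' := hg.2
  have cP : Continuous P := continuous_iff_continuousAt.2 fun x => (hP x).continuousAt
  have cP' : Continuous P' := continuous_iff_continuousAt.2 fun x => (hP' x).continuousAt
  have hF : ∀ x, HasDerivAt (fun x => 2 * τ * ((g x - τ * P x) * P' x) + τ ^ 2 * (P x * P' x))
      (2 * τ * ((g' x - τ * P' x) * P' x + (g x - τ * P x) * (q x * P x)) +
        τ ^ 2 * (P' x * P' x + P x * (q x * P x))) x := by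
    intro x
    exact ((((hg.1 x).sub ((hP x).const_mul τ)).mul (hP' x)).const_mul (2 * τ)).add
      (((hP x).mul (hP' x)).const_mul (τ ^ 2))
  have h1 := intervalIntegral.integral_eq_sub_of_hasDerivAt (a := α) (b := X) (fun x _ => hF x)
    (Continuous.intervalIntegrable (by fun_prop) _ _)
  have h2 : ∫ x in α..X, (g' x ^ 2 + q x * g x ^ 2) =
      ∫ x in α..X, (((g' x - τ * P' x) ^ 2 + q x * (g x - τ * P x) ^ 2) +
        (2 * τ * ((g' x - τ * P' x) * P' x + (g x - τ * P x) * (q x * P x)) +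
        τ ^ 2 * (P' x * P' x + P x * (q x * P x)))) := by
    apply intervalIntegral.integral_congr
    intro x _
    simp only
    ring
  rw [h2, intervalIntegral.integral_add (Continuous.intervalIntegrable (by fun_prop) _ _)
    (Continuous.intervalIntegrable (by fun_prop) _ _), h1, hα, hX]
  ring

/-- The potential term. -/
theorem pot_term {u w κ : ℝ} (huw : u ≤ w) {q h h' : ℝ → ℝ} (hq : Continuous q)
    (hh : C1 h h') (hκ : ∀ x, u ≤ x → x ≤ w → |q x| ≤ κ) :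
    (∫ x in u..w, h' x ^ 2) - κ * (∫ x in u..w, h x ^ 2) ≤
      ∫ x in u..w, (h' x ^ 2 + q x * h x ^ 2) := by
  have ch := c1_cont hh
  have ch' := hh.2
  rw [← intervalIntegral.integral_const_mul, ← intervalIntegral.integral_sub
    (Continuous.intervalIntegrable (by fun_prop) _ _)
    (Continuous.intervalIntegrable (by fun_prop) _ _)]
  apply intervalIntegral.integral_mono_on huw
    (Continuous.intervalIntegrable (by fun_prop) _ _)
    (Continuous.intervalIntegrable (by fun_prop) _ _)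
  intro x hx
  have h1 := (abs_le.1 (hκ x hx.1 hx.2)).1
  nlinarith [sq_nonneg (h x), mul_le_mul_of_nonneg_right h1 (sq_nonneg (h x))]

theorem exp_bounds {K : ℝ} (hK : 1 ≤ K) : Real.exp K + 1 < Real.exp (K + 1) := by
  rw [Real.exp_add]
  have h1 : 2 < Real.exp 1 := by
    have := Real.exp_one_gt_d9
    linarith
  have h2 : 1 < Real.exp K := Real.one_lt_exp_iff.2 (by linarith)
  nlinarith

/-- The boundary term at the inner radius. -/
theorem bdry (N : ℕ) (L K₁ : ℝ) (hN : 3 ≤ N) :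
    Px N L (-K₁ / N) * Px' N L (-K₁ / N) = ((N : ℝ) / 2 - 1) * Px N L (-K₁ / N) ^ 2 +
      aa N K₁ ^ (N - 1) * (dph N L 1 (aa N K₁) * ph N L 1 (aa N K₁)) := by
  have h1 : Real.exp (-K₁ / N) = aa N K₁ := rfl
  have h2 : Real.exp (((N : ℝ) / 2 - 1) * (-K₁ / N)) * Real.exp (((N : ℝ) / 2 - 1) * (-K₁ / N)) =
      aa N K₁ ^ (N - 2) := by
    rw [← h1, ← Real.exp_nat_mul, ← Real.exp_add]
    have h3 : ((N - 2 : ℕ) : ℝ) = N - 2 := by
      rw [Nat.cast_sub (by omega)]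
      norm_num
    rw [h3]
    ring_nf
  have h4 : aa N K₁ ^ (N - 1) = aa N K₁ ^ (N - 2) * aa N K₁ := by
    rw [← pow_succ]
    congr 1
    omega
  unfold Px Px' gx gx'
  rw [h1, h4, ← h2]
  ring

theorem pf_OX (hL1 : T_L1) (hL2 : T_L2) (hPE : T_PE) (hCV : T_CV) (hPW : T_PW) (hWI : T_WI) :
    T_OX := by
  intro K K₁ hK hK₁
  obtain ⟨K₂, hK₂⟩ : ∃ K₂ : ℝ, K₂ = K + K₁ + 1 := ⟨_, rfl⟩
  have hK₂0 : 0 < K₂ := by linarith
  obtain ⟨N₀, hN₀, hq⟩ := qx_small hL1 hL2 K₁ K₂ hK₁ (by linarith)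
  refine ⟨1 / (2 * K₂ ^ 2), N₀, by positivity, hN₀, ?_⟩
  intro N L τ R f f' S hN hF hf hS hoff hvr haR hRb hin hfR hfa
  have hN3 : 3 ≤ N := hN₀.trans hN
  have hN0 : (0 : ℝ) < N := by
    have : 0 < N := by omega
    exact_mod_cast this
  obtain ⟨hP, hP', -, -, -, -⟩ := hPE N L hN3 hF
  have ha0 : 0 < aa N K₁ := Real.exp_pos _
  have hR0 : 0 < R := ha0.trans_le haR
  have hb0 : 0 < bb N := hR0.trans_le hRb
  have hla : Real.log (aa N K₁) = -K₁ / N := by
    unfold aa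
    rw [Real.log_exp]
  have hαX : -K₁ / N ≤ Real.log R := by
    rw [← hla]
    exact Real.log_le_log ha0 haR
  have hXB : Real.log R ≤ Real.log (bb N) := Real.log_le_log hR0 hRb
  have hNα : (N : ℝ) * (-K₁ / N) = -K₁ := by field_simp
  -- (i)
  have hvol := vol_low N hN3 hS ha0 haR hRb hin
  have ha1 : aa N K₁ ≤ 1 := by
    unfold aa
    apply Real.exp_le_one_iff.2
    apply div_nonpos_of_nonpos_of_nonneg (by linarith) hN0.le
  have haN : aa N K₁ ^ N ≤ 1 := pow_le_one₀ ha0.le ha1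
  have hi : R ^ N ≤ Real.exp K + 1 := by linarith
  refine ⟨hi, ?_⟩
  have hNX : (N : ℝ) * Real.log R ≤ K + 1 := by
    have h1 := Real.log_le_log (pow_pos hR0 N) (hi.trans (exp_bounds hK).le)
    rwa [Real.log_pow, Real.log_exp] at h1
  -- (ii)
  obtain ⟨hg, hg', hcv, -⟩ := hCV N L (aa N K₁) (bb N) f f' hN3 ha0 (haR.trans hRb) hf.c1
  have hgC : C1 (gx N f) (gx' N f f') := ⟨hg, hg'⟩
  have hgB : gx N f (Real.log (bb N)) = 0 := by
    unfold gx
    rw [Real.exp_log hb0, hf.far _ le_rfl, mul_zero]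
  have hgX : gx N f (Real.log R) = 0 := by
    unfold gx
    rw [Real.exp_log hR0, hfR, mul_zero]
  have hgα : gx N f (-K₁ / N) = τ * Px N L (-K₁ / N) := by
    unfold Px gx
    have h1 : Real.exp (-K₁ / N) = aa N K₁ := rfl
    rw [h1, hfa]
    ring
  have hqc : Continuous (qx N L) := by
    unfold qx
    fun_prop
  have cg := c1_cont hgC
  have hhC : C1 (fun x => gx N f x - τ * Px N L x) (fun x => gx' N f f' x - τ * Px' N L x) := by
    refine ⟨fun x => (hg x).sub ((hP x).const_mul τ), ?_⟩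
    have : Continuous (Px' N L) := continuous_iff_continuousAt.2 fun x => (hP' x).continuousAt
    exact hg'.sub (this.const_mul τ)
  have hsplit := split_off hqc hgC hP hP' hgα hgX
  have hadj := intervalIntegral.integral_add_adjacent_intervals
    (μ := volume) (f := fun x => gx' N f f' x ^ 2 + qx N L x * gx N f x ^ 2)
    (a := -K₁ / N) (b := Real.log R) (c := Real.log (bb N))
    (Continuous.intervalIntegrable (by fun_prop) _ _)
    (Continuous.intervalIntegrable (by fun_prop) _ _)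
  -- (iv)
  have hpot1 := pot_term hαX hqc hhC (κ := (N : ℝ) ^ 2 / (2 * K₂ ^ 2))
    (fun x h1 h2 => hq N L x hN hF h1 (h2.trans hXB))
  have hz := zero_left hαX hhC (by
    show gx N f (-K₁ / N) - τ * Px N L (-K₁ / N) = 0
    rw [hgα]
    ring)
  have hXα : (Real.log R - -K₁ / N) ^ 2 ≤ (K₂ / N) ^ 2 := by
    apply pow_le_pow_left₀ (by linarith)
    rw [le_div_iff₀ hN0]
    nlinarith
  have p1 := int_sq_nonneg hαX (fun x => gx' N f f' x - τ * Px' N L x)
  have hz2 : (N : ℝ) ^ 2 / (2 * K₂ ^ 2) *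
      (∫ x in -K₁ / N..Real.log R, (gx N f x - τ * Px N L x) ^ 2) ≤
      1 / 4 * ∫ x in -K₁ / N..Real.log R, (gx' N f f' x - τ * Px' N L x) ^ 2 := by
    calc (N : ℝ) ^ 2 / (2 * K₂ ^ 2) *
        (∫ x in -K₁ / N..Real.log R, (gx N f x - τ * Px N L x) ^ 2)
        ≤ (N : ℝ) ^ 2 / (2 * K₂ ^ 2) * ((K₂ / N) ^ 2 / 2 *
          ∫ x in -K₁ / N..Real.log R, (gx' N f f' x - τ * Px' N L x) ^ 2) := by
          apply mul_le_mul_of_nonneg_left _ (by positivity)
          refine hz.trans ?_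
          apply mul_le_mul_of_nonneg_right _ p1
          linarith
      _ = _ := by
          field_simp
          ring
  -- (v)
  have hpot2 := pot_term hXB hqc hgC (κ := (N : ℝ) ^ 2 / (2 * K₂ ^ 2))
    (fun x h1 h2 => hq N L x hN hF (hαX.trans h1) h2)
  have hpw := hPW (Real.log R) (Real.log (bb N)) (K₂ / N) _ _ hXB (by positivity) hgC hgX (by
    intro y hy1 hy2
    by_contra hcon
    push Not at hcon
    have h1 := hWI N S y (K₂ / N) hN3 hS (by positivity)
      ((Real.le_log_iff_exp_le hb0).1 hy2) (by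
        intro z hz1 hz2
        by_contra hzS
        apply hcon z hz1 hz2
        unfold gx
        rw [hoff _ (Real.exp_pos z) hzS, mul_zero])
    have h2 : Real.exp (-K₁) ≤ Real.exp (N * y) := by
      apply Real.exp_le_exp.2
      have : (N : ℝ) * (-K₁ / N) ≤ N * y := mul_le_mul_of_nonneg_left (hαX.trans hy1) hN0.le
      linarith
    have h3 : (N : ℝ) * (K₂ / N) = K₂ := by field_simp
    rw [h3] at h1
    have h4 : 1 ≤ Real.exp K₂ := Real.one_le_exp hK₂0.le
    have h5 : Real.exp (-K₁) * (Real.exp K₂ - 1) ≤ Real.exp (N * y) * (Real.exp K₂ - 1) :=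
      mul_le_mul_of_nonneg_right h2 (by linarith)
    have h6 : Real.exp (-K₁) * Real.exp K₂ = Real.exp (K + 1) := by
      rw [← Real.exp_add, hK₂]
      ring_nf
    have h7 : Real.exp (-K₁) ≤ 1 := Real.exp_le_one_iff.2 (by linarith)
    have h8 := exp_bounds hK
    rw [mul_sub, h6, mul_one] at h5
    linarith)
  have hpw2 : 2 * ((N : ℝ) ^ 2 / (2 * K₂ ^ 2)) *
      (∫ x in Real.log R..Real.log (bb N), gx N f x ^ 2) ≤
      ∫ x in Real.log R..Real.log (bb N), gx' N f f' x ^ 2 := by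
    calc 2 * ((N : ℝ) ^ 2 / (2 * K₂ ^ 2)) *
        (∫ x in Real.log R..Real.log (bb N), gx N f x ^ 2)
        ≤ 2 * ((N : ℝ) ^ 2 / (2 * K₂ ^ 2)) * ((K₂ / N) ^ 2 *
          ∫ x in Real.log R..Real.log (bb N), gx' N f f' x ^ 2) :=
          mul_le_mul_of_nonneg_left hpw (by positivity)
      _ = _ := by
          field_simp
  have hbd := bdry N L K₁ hN3
  rw [hcv, hla, ← hadj, hsplit, hgB, hgα]
  have e1 : 1 / (2 * K₂ ^ 2) * (N : ℝ) ^ 2 = (N : ℝ) ^ 2 / (2 * K₂ ^ 2) := by ring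
  rw [e1]
  have e2 : τ ^ 2 * (Px N L (-K₁ / N) * Px' N L (-K₁ / N)) =
      ((N : ℝ) / 2 - 1) * (τ * Px N L (-K₁ / N)) ^ 2 +
      aa N K₁ ^ (N - 1) * (dph N L 1 (aa N K₁) * ph N L 1 (aa N K₁)) * τ ^ 2 := by
    rw [hbd]
    ring
  have e3 : (((N : ℝ) / 2 - 1) * ((0 : ℝ) ^ 2 - (τ * Px N L (-K₁ / N)) ^ 2)) =
      -(((N : ℝ) / 2 - 1) * (τ * Px N L (-K₁ / N)) ^ 2) := by ring
  rw [e3]
  have p2 := int_sq_nonneg hXB (gx' N f f')
  have p3 : 0 ≤ (N : ℝ) ^ 2 / (2 * K₂ ^ 2) *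
      ∫ x in Real.log R..Real.log (bb N), gx N f x ^ 2 :=
    mul_nonneg (by positivity) (int_sq_nonneg hXB _)
  linarith [hpot1, hpot2, hz2, hpw2, e2, p1, p2, p3]

end Pool.Agent.H75.LNN
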